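import Mathlib
import Pool.Agent.H18.Hof1

namespace Pool.Agent.Results.MP_f18a8d_nt.NotReg

open Pool.Agent.H18.Hof

/-- `Q` satisfies the perturbed Hofstadter recurrence on indices `n ≥ 1` (`Q 0` is unused). -/
def IsQ (Q : ℕ → ℤ) : Prop :=
  Q 1 = 1 ∧ Q 2 = 1 ∧ ∀ n : ℕ, 3 ≤ n →
    Q n = Q ((n : ℤ) - Q (n - 1)).toNat + Q ((n : ℤ) - Q (n - 2)).toNat + (-1) ^ n

/-- The `ℤ`-module spanned by the `4`-kernel of `t` is finitely generated. -/
def Regular4 (t : ℕ → ℤ) : Prop :=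
  (Submodule.span ℤ {f : ℕ → ℤ | ∃ e c : ℕ, c < 4 ^ e ∧ f = fun n => t (4 ^ e * n + c)}).FG

noncomputable def Q0 (n : ℕ) : ℤ :=
  if n < 3 then 1 else
    (if _h : ((n : ℤ) - Q0 (n - 1)).toNat < n then Q0 ((n : ℤ) - Q0 (n - 1)).toNat else 1) +
    (if _h : ((n : ℤ) - Q0 (n - 2)).toNat < n then Q0 ((n : ℤ) - Q0 (n - 2)).toNat else 1) +
      (-1) ^ n
termination_by n
decreasing_by all_goals omega

lemma Q0_odd (n : ℕ) : Odd (Q0 n) := by
  induction n using Nat.strong_induction_on with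
  | _ n ih =>
    rw [Q0]
    split_ifs with h h1 h2 h2
    · exact odd_one
    · exact ((ih _ h1).add_odd (ih _ h2)).add_odd (odd_neg_one.pow)
    · exact ((ih _ h1).add_odd odd_one).add_odd (odd_neg_one.pow)
    · exact (odd_one.add_odd (ih _ h2)).add_odd (odd_neg_one.pow)
    · exact (odd_one.add_odd odd_one).add_odd (odd_neg_one.pow)

lemma Q0_rec (n : ℕ) (h : 3 ≤ n) (h1 : 1 ≤ Q0 (n-1)) (h2 : 1 ≤ Q0 (n-2)) :
    Q0 n = Q0 ((n : ℤ) - Q0 (n - 1)).toNat + Q0 ((n : ℤ) - Q0 (n - 2)).toNat + (-1) ^ n := by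
  conv_lhs => rw [Q0]
  rw [if_neg (by omega), dif_pos (by omega), dif_pos (by omega)]

lemma Q0_small (n : ℕ) (h : n < 3) : Q0 n = 1 := by rw [Q0, if_pos h]

noncomputable def q (z : ℤ) : ℤ := Q0 z.toNat
noncomputable def A (m : ℤ) : ℤ := (q (2*m-1) + 1) / 2
noncomputable def B (m : ℤ) : ℤ := (q (2*m) + 1) / 2

lemma qA (m : ℤ) : q (2*m-1) = 2 * A m - 1 := by
  obtain ⟨k, hk⟩ := Q0_odd (2*m-1).toNat
  unfold A q; omega
lemma qB (m : ℤ) : q (2*m) = 2 * B m - 1 := by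
  obtain ⟨k, hk⟩ := Q0_odd (2*m).toNat
  unfold B q; omega

lemma q_rec (z : ℤ) (h : 3 ≤ z) (h1 : 1 ≤ q (z-1)) (h2 : 1 ≤ q (z-2)) :
    q z = q (z - q (z-1)) + q (z - q (z-2)) + (-1) ^ z.toNat := by
  unfold q at *
  have e1 : (z-1).toNat = z.toNat - 1 := by omega
  have e2 : (z-2).toNat = z.toNat - 2 := by omega
  rw [e1] at h1 ⊢
  rw [e2] at h2 ⊢
  have := Q0_rec z.toNat (by omega) h1 h2
  rwa [show ((z.toNat : ℕ) : ℤ) = z by omega] at this

lemma rc : Rc A B := by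
  constructor
  · intro m hm h1 h2
    have e1 : 2*m+1-1 = 2*m := by ring
    have e2 : 2*m+1-2 = 2*m-1 := by ring
    have := q_rec (2*m+1) (by omega) (by rw [e1, qB]; omega) (by rw [e2, qA]; omega)
    rw [e1, e2, qA, qB, show 2*m+1 = 2*(m+1)-1 by ring, qA,
      show 2*(m+1)-1-(2*B m-1) = 2*(m - B m + 1) by ring,
      show 2*(m+1)-1-(2*A m-1) = 2*(m - A m + 1) by ring, qB, qB,
      Odd.neg_one_pow ⟨m.toNat, by omega⟩] at this
    omega
  · intro m hm h1 h2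
    have e2 : 2*m-2 = 2*(m-1) := by ring
    have := q_rec (2*m) (by omega) (by rw [qA]; omega) (by rw [e2, qB]; omega)
    rw [e2, qA, qB, qB,
      show 2*m-(2*A m-1) = 2*(m - A m + 1)-1 by ring,
      show 2*m-(2*B (m-1)-1) = 2*(m - B (m-1) + 1)-1 by ring, qA, qA,
      Even.neg_one_pow ⟨m.toNat, by omega⟩] at this
    omega

lemma A1 : A 1 = 1 := by
  unfold A q; norm_num; rw [Q0_small 1 (by omega)]; norm_num
lemma B1 : B 1 = 1 := by
  unfold B q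
  rw [show ((2:ℤ)*1).toNat = 2 by rfl, Q0_small 2 (by omega)]; norm_num

lemma Q0_bd (n : ℕ) (h : 1 ≤ n) : 1 ≤ Q0 n ∧ Q0 n ≤ n := by
  have hq : Q0 n = q n := by simp [q]
  rw [hq]
  rcases Nat.even_or_odd' n with ⟨m, rfl | rfl⟩
  · have := allbd rc A1 B1 m (by omega)
    push_cast
    rw [qB]; omega
  · have := allbd rc A1 B1 (m+1) (by omega)
    push_cast
    rw [show 2*(m:ℤ)+1 = 2*(m+1)-1 by ring, qA]; omega

lemma isQ0 : IsQ Q0 :=
  ⟨Q0_small 1 (by omega), Q0_small 2 (by omega), fun n h =>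
    Q0_rec n h (Q0_bd _ (by omega)).1 (Q0_bd _ (by omega)).1⟩

lemma uniq (Q : ℕ → ℤ) (h : IsQ Q) (n : ℕ) (hn : 1 ≤ n) : Q n = Q0 n := by
  induction n using Nat.strong_induction_on with
  | _ n ih =>
    by_cases h3 : 3 ≤ n
    · have b1 := Q0_bd (n-1) (by omega)
      have b2 := Q0_bd (n-2) (by omega)
      rw [h.2.2 n h3, isQ0.2.2 n h3, ih (n-1) (by omega) (by omega), ih (n-2) (by omega) (by omega),
        ih _ (by omega) (by omega), ih _ (by omega) (by omega)]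
    · rw [Q0_small n (by omega)]
      have : n = 1 ∨ n = 2 := by omega
      rcases this with rfl | rfl
      · exact h.1
      · exact h.2.1

def X : ℕ → ℕ
  | 0 => 0
  | k+1 => 4 * X k + 2

lemma X_aa (k : ℕ) : (X (k+1) : ℤ) = 4 * aa k - 2 := by
  induction k with
  | zero => simp [X, aa]
  | succ k ih => rw [X, aa]; push_cast; rw [ih]; ring

lemma X_add (i e : ℕ) : X (i+e) = 4^e * X i + X e := by
  induction e with
  | zero => simp [X]
  | succ e ih => rw [← add_assoc, X, X, ih]; ring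

lemma X_lt (e : ℕ) : X e < 4^e := by
  induction e with
  | zero => simp [X]
  | succ e ih => rw [X, pow_succ]; omega

lemma X_ge (e : ℕ) : 4 * e ≤ X e + 2 := by
  induction e with
  | zero => simp
  | succ e ih =>
    rw [X]
    rcases e with _ | e
    · simp [X]
    · omega

lemma pig (t : ℕ → ℤ) (h : Regular4 t) : ∃ i j, i < j ∧ ∀ e c, c < 4^e →
    ((t (4^e * X i + c) : ℤ) : ZMod 2) = t (4^e * X j + c) := by
  obtain ⟨S, hS⟩ := h
  obtain ⟨i, j, hij, he⟩ : ∃ i j, i < j ∧ (fun g : S => ((g.1 (X i) : ℤ) : ZMod 2)) =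
      fun g : S => ((g.1 (X j) : ℤ) : ZMod 2) := by
    obtain ⟨i, j, hne, he⟩ := Finite.exists_ne_map_eq_of_infinite
      (fun i : ℕ => fun g : S => ((g.1 (X i) : ℤ) : ZMod 2))
    rcases lt_or_gt_of_ne hne with hl | hl
    · exact ⟨i, j, hl, he⟩
    · exact ⟨j, i, hl, he.symm⟩
  refine ⟨i, j, hij, fun e c hc => ?_⟩
  have hm : (fun n => t (4^e * n + c)) ∈ Submodule.span ℤ (S : Set (ℕ → ℤ)) := by
    rw [hS]; exact Submodule.subset_span ⟨e, c, hc, rfl⟩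
  have : ∀ f ∈ Submodule.span ℤ (S : Set (ℕ → ℤ)),
      ((f (X i) : ℤ) : ZMod 2) = f (X j) := by
    intro f hf
    induction hf using Submodule.span_induction with
    | mem g hg => exact congrFun he ⟨g, hg⟩
    | zero => simp
    | add f g _ _ h1 h2 => simp [h1, h2]
    | smul a f _ h1 => simp [h1]
  exact this _ hm

lemma sgn (m : ℤ) (n : ℕ) (h : (n:ℤ) = 2*m-1) : Q0 (n+1) - Q0 n = 2 * (B m - A m) := by
  have h1 : Q0 n = q (2*m-1) := by unfold q; rw [← h]; simp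
  have h2 : Q0 (n+1) = q (2*m) := by unfold q; congr 1; omega
  rw [h1, h2, qA, qB]; ring

theorem result : (∃ Q, IsQ Q) ∧ ∀ Q, IsQ Q →
    ¬ ∃ t : ℕ → ℤ, Regular4 t ∧ ∃ N, ∀ n, N ≤ n → Int.sign (Q (n + 1) - Q n) = t n := by
  refine ⟨⟨Q0, isQ0⟩, fun Q hQ ⟨t, ht, N, hN⟩ => ?_⟩
  obtain ⟨i, j, hij, hp⟩ := pig t ht
  obtain ⟨e, he⟩ : ∃ e, e = i + j + N + 2 := ⟨_, rfl⟩
  have g1 := X_ge e
  have g2 := X_lt e
  have := hp e (X e - (2*(i+e)-1)) (by omega)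
  have a1 := X_add i e
  have a2 := X_add j e
  obtain ⟨k, hk⟩ : ∃ k, i + e = k + 1 := ⟨i+e-1, by omega⟩
  obtain ⟨l, hl⟩ : ∃ l, j + e = l + 1 := ⟨j+e-1, by omega⟩
  have x1 := X_aa k
  have x2 := X_aa l
  rw [← hk] at x1
  rw [← hl] at x2
  have I1 := allI rc A1 B1 k
  have I2 := allI rc A1 B1 l
  obtain ⟨n1, hn1⟩ : ∃ n1, n1 = 4^e * X i + (X e - (2*(i+e)-1)) := ⟨_, rfl⟩
  obtain ⟨n2, hn2⟩ : ∃ n2, n2 = 4^e * X j + (X e - (2*(i+e)-1)) := ⟨_, rfl⟩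
  rw [← hn1, ← hn2, ← hN n1 (by omega), ← hN n2 (by omega), uniq Q hQ _ (by omega),
    uniq Q hQ n1 (by omega), uniq Q hQ _ (by omega), uniq Q hQ n2 (by omega),
    sgn (2 * aa k - ((k:ℤ)-1) - 2) n1 (by omega),
    sgn (2 * aa l - ((k:ℤ)-1) - 2) n2 (by omega)] at this
  have r1 := I1.rel (2 * aa k - ((k:ℤ)-1) - 2) le_rfl (by have := I1.ra; omega)
  have r2 := I1.e0
  have r3 := I2.bal (2 * aa l - ((k:ℤ)-1) - 2) (by omega) (by have := I2.ra; omega)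
  rw [show B (2 * aa k - ((k:ℤ)-1) - 2) - A (2 * aa k - ((k:ℤ)-1) - 2) = 0 by omega,
    Int.sign_eq_one_of_pos (a := 2 * (B (2 * aa l - ((k:ℤ)-1) - 2) - A (2 * aa l - ((k:ℤ)-1) - 2)))
      (by omega)] at this
  revert this
  decide

end Pool.Agent.Results.MP_f18a8d_nt.NotReg
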